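import Pool.Agent.Helper40.MC.Defs

/-!
# Finite unions of arithmetic progressions
-/

set_option autoImplicit false

namespace Pool.Agent.Helper12.MC

open Pool.Agent.Helper40.MC

/-- block StmtAP -/
theorem stmtAP : StmtAP := by
  classical
  intro k A
  constructor
  · rintro ⟨n₁, h⟩
    let B : ℕ × ℕ → Set ℕ := fun p => {n | n₁ ≤ n ∧ n % p.1 = p.2 ∧ ∀ j : ℕ, n + p.1 * j ∈ A}
    refine ⟨(Finset.range n₁).filter (fun n => n ∈ A),
      ((Finset.Icc 1 k ×ˢ Finset.range k).filter (fun p => (B p).Nonempty)).image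
        (fun p => (sInf (B p), p.1)), ?_, ?_⟩
    · intro p hp
      obtain ⟨q, hq, rfl⟩ := Finset.mem_image.1 hp
      rw [Finset.mem_filter, Finset.mem_product, Finset.mem_Icc] at hq
      exact hq.1.1
    · ext n
      constructor
      · intro hn
        rcases Nat.lt_or_ge n n₁ with hlt | hge
        · exact Or.inl (Finset.mem_filter.2 ⟨Finset.mem_range.2 hlt, hn⟩)
        · right
          obtain ⟨t, ht1, htk, ht⟩ := h n hn hge
          have hB : n ∈ B (t, n % t) := ⟨hge, rfl, ht⟩
          have hr : n % t < t := Nat.mod_lt _ (by omega)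
          refine ⟨(sInf (B (t, n % t)), t), Finset.mem_image.2 ⟨(t, n % t), ?_, rfl⟩, ?_⟩
          · rw [Finset.mem_filter, Finset.mem_product, Finset.mem_Icc, Finset.mem_range]
            exact ⟨⟨⟨ht1, htk⟩, by show n % t < k; omega⟩, ⟨n, hB⟩⟩
          · have hm := Nat.sInf_mem (s := B (t, n % t)) ⟨n, hB⟩
            have hle : sInf (B (t, n % t)) ≤ n := Nat.sInf_le hB
            have hmod : sInf (B (t, n % t)) % t = n % t := hm.2.1
            obtain ⟨j, hj⟩ := (Nat.modEq_iff_dvd' hle).1 hmod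
            exact ⟨j, by show n = sInf (B (t, n % t)) + t * j; omega⟩
      · rintro (hn | ⟨p, hp, j, hj⟩)
        · exact (Finset.mem_filter.1 hn).2
        · obtain ⟨q, hq, rfl⟩ := Finset.mem_image.1 hp
          rw [Finset.mem_filter] at hq
          have hm := Nat.sInf_mem hq.2
          rw [hj]
          exact hm.2.2 j
  · rintro ⟨F, P, hP, rfl⟩
    refine ⟨F.sup id + 1, ?_⟩
    rintro n (hn | ⟨p, hp, j, rfl⟩) hge
    · have h1 : n ≤ F.sup id := Finset.le_sup (f := id) hn
      omega
    · refine ⟨p.2, (hP p hp).1, (hP p hp).2, fun j' => Or.inr ⟨p, hp, j + j', ?_⟩⟩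
      ring

end Pool.Agent.Helper12.MC
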