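import Pool.Agent.Helper40.MC.Defs

/-!
# Closed sets of permutation groups
-/

set_option autoImplicit false

namespace Pool.Agent.Helper12.MC

open Pool.Agent.Helper40.MC

variable {V : Type} [Fintype V]

/-- the pointwise stabiliser of a finite set -/
def St (G : Subgroup (Equiv.Perm V)) (A : Finset V) : Subgroup (Equiv.Perm V) :=
  G ⊓ fixP (A : Set V)

/-- all orbits of the pointwise stabiliser outside are long -/
def Cl (G : Subgroup (Equiv.Perm V)) (T : ℕ) (A : Finset V) : Prop :=
  ∀ x, x ∉ A → T < (orb (St G A) x).card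

variable {G : Subgroup (Equiv.Perm V)} {T : ℕ} {A B : Finset V}

omit [Fintype V] in
lemma mem_St {σ : Equiv.Perm V} : σ ∈ St G A ↔ σ ∈ G ∧ ∀ x ∈ A, σ x = x := Iff.rfl

lemma mem_orbF {H : Subgroup (Equiv.Perm V)} {x y : V} : y ∈ orb H x ↔ ∃ σ ∈ H, σ x = y := by
  unfold Helper40.MC.orb
  simp

lemma orb_mono {H K : Subgroup (Equiv.Perm V)} (h : H ≤ K) (x : V) : orb H x ⊆ orb K x := by
  intro y hy
  obtain ⟨σ, hσ, e⟩ := mem_orbF.1 hy
  exact mem_orbF.2 ⟨σ, h hσ, e⟩

omit [Fintype V] in
lemma St_anti (h : A ⊆ B) : St G B ≤ St G A :=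
  fun _ hσ => ⟨hσ.1, fun x hx => hσ.2 x (h hx)⟩

/-- orbits and stabilisers -/
lemma card_le_orb (H : Subgroup (Equiv.Perm V)) (x : V) :
    Nat.card H ≤ (orb H x).card * Nat.card (H ⊓ fixP {x} : Subgroup (Equiv.Perm V)) := by
  classical
  have e1 : ∀ K : Subgroup (Equiv.Perm V),
      Nat.card K = (Finset.univ.filter (fun σ : Equiv.Perm V => σ ∈ K)).card := by
    intro K
    rw [Nat.card_eq_fintype_card, Fintype.card_subtype]
  rw [e1 H, mul_comm]
  have e2 : orb H x = (Finset.univ.filter (fun σ : Equiv.Perm V => σ ∈ H)).image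
      (fun σ => σ x) := by
    ext y
    rw [mem_orbF, Finset.mem_image]
    simp
  rw [e2]
  refine Finset.card_le_mul_card_image _ _ (fun a ha => ?_)
  obtain ⟨σ₀, hσ₀, rfl⟩ := Finset.mem_image.1 ha
  rw [Finset.mem_filter] at hσ₀
  rw [e1]
  refine Finset.card_le_card_of_injOn (fun σ => σ₀⁻¹ * σ) ?_ ?_
  · intro σ hσ
    simp only [Finset.coe_filter, Set.mem_ofPred_eq, Finset.mem_filter, Finset.mem_univ,
      true_and] at hσ ⊢
    refine ⟨H.mul_mem (H.inv_mem hσ₀.2) hσ.1, ?_⟩
    intro y hy
    rw [Set.mem_singleton_iff] at hy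
    subst hy
    show σ₀⁻¹ (σ y) = y
    rw [hσ.2]
    simp
  · intro σ _ τ _ h
    exact mul_left_cancel h

lemma card_St_le (A : Finset V) [DecidableEq V] (x : V) :
    Nat.card (St G A) ≤ (orb (St G A) x).card * Nat.card (St G (insert x A)) := by
  have e : St G (insert x A) = St G A ⊓ fixP {x} := by
    ext σ
    rw [mem_St, Subgroup.mem_inf, mem_St]
    constructor
    · intro h
      refine ⟨⟨h.1, fun y hy => h.2 y (Finset.mem_insert_of_mem hy)⟩, fun y hy => ?_⟩
      rw [Set.mem_singleton_iff] at hy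
      rw [hy]
      exact h.2 x (Finset.mem_insert_self x A)
    · intro h
      refine ⟨h.1.1, fun y hy => ?_⟩
      rcases Finset.mem_insert.1 hy with hy | hy
      · exact h.2 y (by rw [hy]; rfl)
      · exact h.1.2 y hy
  rw [e]
  exact card_le_orb _ x

lemma card_orb_le (H : Subgroup (Equiv.Perm V)) (x : V) : (orb H x).card ≤ Fintype.card V :=
  Finset.card_le_univ _

lemma card_le_pow (A : Finset V) :
    Nat.card G ≤ Fintype.card V ^ A.card * Nat.card (St G A) := by
  classical
  induction A using Finset.induction_on with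
  | empty =>
    have e : St G ∅ = G := by
      ext σ
      rw [mem_St]
      simp
    rw [e, Finset.card_empty, pow_zero, one_mul]
  | insert x A hx ih =>
    rw [Finset.card_insert_of_notMem hx, pow_succ, mul_assoc]
    refine ih.trans (Nat.mul_le_mul_left _ ?_)
    exact (card_St_le A x).trans (Nat.mul_le_mul_right _ (card_orb_le _ x))

/-- closures -/
lemma exists_closure [DecidableEq V] (A : Finset V) : ∃ A' : Finset V, A ⊆ A' ∧ Cl G T A' ∧
    Nat.card (St G A) ≤ T ^ (A' \ A).card * Nat.card (St G A') := by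
  obtain ⟨m, hm⟩ : ∃ m, m = Aᶜ.card := ⟨_, rfl⟩
  induction m using Nat.strong_induction_on generalizing A with
  | _ m ih =>
    by_cases hA : Cl G T A
    · exact ⟨A, subset_rfl, hA, by simp⟩
    · unfold Cl at hA
      push Not at hA
      obtain ⟨x, hx, hxT⟩ := hA
      have hlt : (insert x A)ᶜ.card < m := by
        rw [hm]
        apply Finset.card_lt_card
        rw [Finset.compl_ssubset_compl]
        exact Finset.ssubset_insert hx
      obtain ⟨A', h1, h2, h3⟩ := ih _ hlt (insert x A) rfl
      refine ⟨A', (Finset.subset_insert x A).trans h1, h2, ?_⟩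
      have e : (A' \ A).card = (A' \ insert x A).card + 1 := by
        have e1 : A' \ A = insert x (A' \ insert x A) := by
          ext y
          simp only [Finset.mem_sdiff, Finset.mem_insert]
          constructor
          · rintro ⟨h4, h5⟩
            by_cases hy : y = x
            · exact Or.inl hy
            · exact Or.inr ⟨h4, fun h => h.elim hy h5⟩
          · rintro (h | ⟨h4, h5⟩)
            · rw [h]
              exact ⟨h1 (Finset.mem_insert_self x A), hx⟩
            · exact ⟨h4, fun h => h5 (Or.inr h)⟩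
        rw [e1, Finset.card_insert_of_notMem]
        simp
      rw [e, pow_succ, mul_comm _ T, mul_assoc]
      calc Nat.card (St G A) ≤ (orb (St G A) x).card * Nat.card (St G (insert x A)) :=
            card_St_le A x
        _ ≤ T * (T ^ (A' \ insert x A).card * Nat.card (St G A')) := Nat.mul_le_mul hxT h3

lemma Cl.inter [DecidableEq V] (hA : Cl G T A) (hB : Cl G T B) : Cl G T (A ∩ B) := by
  intro x hx
  rw [Finset.mem_inter, not_and_or] at hx
  rcases hx with hx | hx
  · exact (hA x hx).trans_le (Finset.card_le_card (orb_mono (St_anti Finset.inter_subset_left) x))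
  · exact (hB x hx).trans_le (Finset.card_le_card (orb_mono (St_anti Finset.inter_subset_right) x))

lemma Cl.map (hA : Cl G T A) {g : Equiv.Perm V} (hg : g ∈ G) :
    Cl G T (A.map g.toEmbedding) := by
  intro x hx
  have hx' : g⁻¹ x ∉ A := by
    intro h
    apply hx
    rw [Finset.mem_map]
    exact ⟨_, h, by simp⟩
  refine (hA _ hx').trans_le ?_
  rw [← Finset.card_map g.toEmbedding]
  apply Finset.card_le_card
  intro y hy
  obtain ⟨z, hz, rfl⟩ := Finset.mem_map.1 hy
  obtain ⟨σ, hσ, rfl⟩ := mem_orbF.1 hz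
  rw [mem_orbF]
  refine ⟨g * σ * g⁻¹, ⟨G.mul_mem (G.mul_mem hg hσ.1) (G.inv_mem hg), ?_⟩, ?_⟩
  · intro w hw
    obtain ⟨v, hv, rfl⟩ := Finset.mem_map.1 hw
    show g (σ (g⁻¹ (g v))) = g v
    have e : g⁻¹ (g v) = v := by simp
    rw [e, hσ.2 v hv]
  · rfl

/-- P3 -/
theorem p3 (G : Subgroup (Equiv.Perm V)) [DecidableEq V] (P : Finset V) (T k : ℕ) (hT : 1 ≤ T) :
    Nat.card G ^ (k + 1) ≤ Fintype.card V ^ ((k + 1) * P.card) *
      T ^ ((k + 1) * Fintype.card V) * Fintype.card V ^ Fintype.card V ∨
    ∃ F A : Finset V, P ⊆ F ∧ F ⊂ A ∧ (A \ F).card ≤ k ∧ Cl G T F ∧ Cl G T A ∧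
      ∀ h ∈ St G F, A.map h.toEmbedding = A ∨ A.map h.toEmbedding ∩ A = F := by
  classical
  let n := Fintype.card V
  let Gd : Finset V → Prop := fun F => P ⊆ F ∧ Nat.card G ^ (k + 1) ≤
    n ^ ((k + 1) * P.card) * (T ^ (k + 1) * n) ^ (F \ P).card * Nat.card (St G F) ^ (k + 1)
  have h0 : Gd P := by
    refine ⟨subset_rfl, ?_⟩
    rw [Finset.sdiff_self, Finset.card_empty, pow_zero, mul_one]
    calc Nat.card G ^ (k + 1) ≤ (n ^ P.card * Nat.card (St G P)) ^ (k + 1) :=
          Nat.pow_le_pow_left (card_le_pow P) _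
      _ = n ^ ((k + 1) * P.card) * Nat.card (St G P) ^ (k + 1) := by
          rw [mul_pow, ← pow_mul, mul_comm P.card]
  obtain ⟨F, hF, hmax⟩ := (Finset.univ.filter Gd).exists_max_image Finset.card
    ⟨P, Finset.mem_filter.2 ⟨Finset.mem_univ _, h0⟩⟩
  rw [Finset.mem_filter] at hF
  have hmax' : ∀ F', Gd F' → F'.card ≤ F.card := fun F' h =>
    hmax F' (Finset.mem_filter.2 ⟨Finset.mem_univ _, h⟩)
  obtain ⟨hPF, hFG⟩ := hF.2
  -- enlarging a good set
  have hstep : ∀ F' : Finset V, F ⊆ F' → F.card < F'.card →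
      Nat.card (St G F) ^ (k + 1) ≤ (T ^ (k + 1) * n) ^ (F' \ F).card *
        Nat.card (St G F') ^ (k + 1) → False := by
    intro F' h1 h2 h3
    have h4 : Gd F' := by
      refine ⟨hPF.trans h1, hFG.trans ?_⟩
      have e : (F' \ P).card = (F \ P).card + (F' \ F).card := by
        rw [← Finset.card_union_of_disjoint]
        · congr 1
          ext y
          simp only [Finset.mem_sdiff, Finset.mem_union]
          constructor
          · rintro ⟨h5, h6⟩
            by_cases hy : y ∈ F
            · exact Or.inl ⟨hy, h6⟩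
            · exact Or.inr ⟨h5, hy⟩
          · rintro (⟨h5, h6⟩ | ⟨h5, h6⟩)
            · exact ⟨h1 h5, h6⟩
            · exact ⟨h5, fun h => h6 (hPF h)⟩
        · rw [Finset.disjoint_left]
          intro y hy hy'
          exact (Finset.mem_sdiff.1 hy').2 (Finset.mem_sdiff.1 hy).1
      rw [e, pow_add (T ^ (k + 1) * n), ← mul_assoc, mul_assoc _ _ (Nat.card (St G F') ^ (k + 1))]
      exact Nat.mul_le_mul_left _ h3
    have := hmax' F' h4
    omega
  have hcl : Cl G T F := by
    intro x hx
    by_contra hxT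
    push Not at hxT
    have hn : 1 ≤ n := Fintype.card_pos_iff.2 ⟨x⟩
    refine hstep (insert x F) (Finset.subset_insert x F)
      (by rw [Finset.card_insert_of_notMem hx]; omega) ?_
    have e : (insert x F \ F).card = 1 := by
      rw [Finset.insert_sdiff_of_notMem _ hx, Finset.sdiff_self]
      simp
    rw [e, pow_one]
    calc Nat.card (St G F) ^ (k + 1) ≤ (T * Nat.card (St G (insert x F))) ^ (k + 1) :=
          Nat.pow_le_pow_left ((card_St_le F x).trans (Nat.mul_le_mul_right _ hxT)) _
      _ = T ^ (k + 1) * 1 * Nat.card (St G (insert x F)) ^ (k + 1) := by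
          rw [mul_pow, mul_one]
      _ ≤ T ^ (k + 1) * n * Nat.card (St G (insert x F)) ^ (k + 1) :=
          Nat.mul_le_mul_right _ (Nat.mul_le_mul_left _ hn)
  by_cases hU : F = Finset.univ
  · left
    have e1 : Nat.card (St G F) = 1 := by
      rw [Nat.card_eq_one_iff_unique]
      refine ⟨⟨fun a b => ?_⟩, ⟨1⟩⟩
      apply Subtype.ext
      ext x
      rw [a.2.2 x (by rw [hU]; exact Finset.mem_coe.2 (Finset.mem_univ x)),
        b.2.2 x (by rw [hU]; exact Finset.mem_coe.2 (Finset.mem_univ x))]
    rw [e1, one_pow, mul_one] at hFG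
    refine hFG.trans ?_
    rw [mul_assoc]
    refine Nat.mul_le_mul_left _ ?_
    rw [pow_mul, ← mul_pow]
    rcases Nat.eq_zero_or_pos n with hn | hn
    · have h1 : (F \ P).card = 0 := by
        have := Finset.card_le_univ (F \ P)
        omega
      rw [h1, show Fintype.card V = 0 from hn]
      simp
    · exact Nat.pow_le_pow_right (Nat.mul_pos (Nat.pow_pos (by omega)) hn)
        (Finset.card_le_univ _)
  · right
    obtain ⟨x, hx⟩ : ∃ x, x ∉ F := by
      by_contra h
      push Not at h
      exact hU (Finset.eq_univ_iff_forall.2 h)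
    obtain ⟨F', h1, h2, h3⟩ := exists_closure (G := G) (T := T) (insert x F)
    have hFF' : F ⊆ F' := (Finset.subset_insert x F).trans h1
    have hss : F ⊂ F' := by
      refine Finset.ssubset_iff_subset_ne.2 ⟨hFF', fun h => hx ?_⟩
      rw [h]
      exact h1 (Finset.mem_insert_self x F)
    have e : (F' \ F).card = (F' \ insert x F).card + 1 := by
      have e1 : F' \ F = insert x (F' \ insert x F) := by
        ext y
        simp only [Finset.mem_sdiff, Finset.mem_insert]
        constructor
        · rintro ⟨h4, h5⟩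
          by_cases hy : y = x
          · exact Or.inl hy
          · exact Or.inr ⟨h4, fun h => h.elim hy h5⟩
        · rintro (h | ⟨h4, h5⟩)
          · rw [h]
            exact ⟨h1 (Finset.mem_insert_self x F), hx⟩
          · exact ⟨h4, fun h => h5 (Or.inr h)⟩
      rw [e1, Finset.card_insert_of_notMem]
      simp
    have hn : 1 ≤ n := Fintype.card_pos_iff.2 ⟨x⟩
    have hk : (F' \ F).card ≤ k := by
      by_contra hk
      push Not at hk
      refine hstep F' hFF' (Finset.card_lt_card hss) ?_
      have h4 : Nat.card (St G F) ≤ n * (T ^ (F' \ insert x F).card * Nat.card (St G F')) :=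
        (card_St_le F x).trans (Nat.mul_le_mul (card_orb_le _ x) h3)
      calc Nat.card (St G F) ^ (k + 1)
          ≤ (n * (T ^ (F' \ insert x F).card * Nat.card (St G F'))) ^ (k + 1) :=
            Nat.pow_le_pow_left h4 _
        _ = n ^ (k + 1) * (T ^ (F' \ insert x F).card) ^ (k + 1) *
            Nat.card (St G F') ^ (k + 1) := by ring
        _ ≤ n ^ (F' \ F).card * (T ^ (F' \ F).card) ^ (k + 1) *
            Nat.card (St G F') ^ (k + 1) := by
            refine Nat.mul_le_mul_right _ (Nat.mul_le_mul ?_ (Nat.pow_le_pow_left ?_ _))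
            · exact Nat.pow_le_pow_right hn (by omega)
            · exact Nat.pow_le_pow_right hT (by omega)
        _ = (T ^ (k + 1) * n) ^ (F' \ F).card * Nat.card (St G F') ^ (k + 1) := by
            rw [mul_pow, ← pow_mul, ← pow_mul]
            ring
    obtain ⟨A, hA, hmin⟩ := (Finset.univ.filter (fun A : Finset V => F ⊂ A ∧ Cl G T A ∧
      (A \ F).card ≤ k)).exists_min_image Finset.card
      ⟨F', Finset.mem_filter.2 ⟨Finset.mem_univ _, hss, h2, hk⟩⟩
    rw [Finset.mem_filter] at hA
    obtain ⟨hFA, hAcl, hAk⟩ := hA.2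
    refine ⟨F, A, hPF, hFA, hAk, hcl, hAcl, fun h hh => ?_⟩
    by_cases hB : A.map h.toEmbedding ∩ A = F
    · exact Or.inr hB
    · left
      have hFB : F ⊆ A.map h.toEmbedding ∩ A := by
        intro y hy
        rw [Finset.mem_inter, Finset.mem_map]
        exact ⟨⟨y, hFA.1 hy, hh.2 y hy⟩, hFA.1 hy⟩
      have hle := hmin (A.map h.toEmbedding ∩ A) (Finset.mem_filter.2 ⟨Finset.mem_univ _,
        Finset.ssubset_iff_subset_ne.2 ⟨hFB, fun h => hB h.symm⟩,
        Cl.inter (Cl.map hAcl hh.1) hAcl,
        (Finset.card_le_card (Finset.sdiff_subset_sdiff Finset.inter_subset_right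
          subset_rfl)).trans hAk⟩)
      have e2 : A.map h.toEmbedding ∩ A = A :=
        Finset.eq_of_subset_of_card_le Finset.inter_subset_right hle
      have e3 : A ⊆ A.map h.toEmbedding := by
        rw [← e2]
        exact Finset.inter_subset_left.trans (by rw [e2])
      exact (Finset.eq_of_subset_of_card_le e3 (by rw [Finset.card_map])).symm

end Pool.Agent.Helper12.MC
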