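import Mathlib

/-!
# Orbits of a group of automorphisms: majority values
-/

set_option autoImplicit false

namespace Pool.Agent.Helper12.MC

open Finset

variable {M : Type} [Fintype M]

open Classical in
/-- the orbit of `x` -/
noncomputable def orb (H : Subgroup (Equiv.Perm M)) (x : M) : Finset M :=
  univ.filter (fun y => ∃ h ∈ H, h x = y)

variable {H : Subgroup (Equiv.Perm M)}

lemma mem_orb {x y : M} : y ∈ orb H x ↔ ∃ h ∈ H, h x = y := by
  unfold orb
  simp

lemma self_mem_orb (x : M) : x ∈ orb H x := mem_orb.2 ⟨1, H.one_mem, rfl⟩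

lemma orb_eq {x y : M} (h : y ∈ orb H x) : orb H y = orb H x := by
  obtain ⟨g, hg, rfl⟩ := mem_orb.1 h
  ext z
  rw [mem_orb, mem_orb]
  constructor
  · rintro ⟨k, hk, rfl⟩
    exact ⟨k * g, H.mul_mem hk hg, rfl⟩
  · rintro ⟨k, hk, rfl⟩
    exact ⟨k * g⁻¹, H.mul_mem hk (H.inv_mem hg), by simp⟩

lemma orb_apply {g : Equiv.Perm M} (hg : g ∈ H) (x : M) : orb H (g x) = orb H x :=
  orb_eq (mem_orb.2 ⟨g, hg, rfl⟩)

lemma mem_orb_apply {g : Equiv.Perm M} (hg : g ∈ H) (x z : M) :
    g z ∈ orb H x ↔ z ∈ orb H x := by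
  constructor
  · intro h
    rw [← orb_eq h, orb_apply hg]
    exact self_mem_orb z
  · intro h
    rw [← orb_eq h, ← orb_apply hg]
    exact self_mem_orb (g z)

omit [Fintype M] in
open Classical in
/-- the number of elements with an invariant property -/
lemma card_filter_apply {P : M → M → Prop} (hP : ∀ h ∈ H, ∀ x y, P (h x) (h y) ↔ P x y)
    {g : Equiv.Perm M} (hg : g ∈ H) (x : M) (O : Finset M) (hO : ∀ z, g z ∈ O ↔ z ∈ O) :
    (O.filter (fun z => P (g x) z)).card = (O.filter (fun z => P x z)).card := by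
  symm
  apply Finset.card_bij (fun z _ => g z)
  · intro z hz
    rw [mem_filter] at hz ⊢
    exact ⟨(hO z).2 hz.1, (hP g hg x z).2 hz.2⟩
  · intro z _ w _ h
    exact g.injective h
  · intro z hz
    rw [mem_filter] at hz
    refine ⟨g⁻¹ z, ?_, by simp⟩
    rw [mem_filter]
    have h1 := hO (g⁻¹ z)
    have h2 := hP g hg x (g⁻¹ z)
    have e : g (g⁻¹ z) = z := by simp
    rw [e] at h1 h2
    exact ⟨h1.1 hz.1, h2.1 hz.2⟩

omit [Fintype M] in
open Classical in
/-- average of the intersections -/
lemma sum_inter (P : M → M → Prop) (O T : Finset M) (x : M) :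
    ∑ x' ∈ O, ((T.filter (fun z => P x z)) ∩ (T.filter (fun z => P x' z))).card =
      ∑ z ∈ T.filter (fun z => P x z), (O.filter (fun x' => P x' z)).card := by
  simp only [Finset.card_eq_sum_ones, Finset.sum_filter]
  rw [Finset.sum_comm' (s := O) (t := fun x' => (T.filter (fun z => P x z)) ∩
    (T.filter (fun z => P x' z))) (t' := T.filter (fun z => P x z))
    (s' := fun z => O.filter (fun x' => P x' z))]
  · rw [Finset.sum_filter]
    refine Finset.sum_congr rfl (fun z _ => ?_)
    rw [Finset.sum_filter]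
  · intro x' z
    simp only [mem_inter, mem_filter]
    tauto

omit [Fintype M] in
open Classical in
/-- double counting -/
lemma sum_double (P : M → M → Prop) (O T : Finset M) :
    ∑ x' ∈ O, (T.filter (fun z => P x' z)).card = ∑ z ∈ T, (O.filter (fun x' => P x' z)).card := by
  simp only [Finset.card_eq_sum_ones, Finset.sum_filter]
  exact Finset.sum_comm

omit [Fintype M] in
open Classical in
/-- intersections are large -/
lemma inter_large (P : M → M → Prop) (T : Finset M) (x x' : M) (L : ℕ)
    (hc : (T.filter (fun z => P x' z)).card = (T.filter (fun z => P x z)).card)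
    (hd : (T.filter (fun z => ¬ (P x z ↔ P x' z))).card ≤ L) :
    2 * (T.filter (fun z => P x z)).card ≤
      2 * ((T.filter (fun z => P x z)) ∩ (T.filter (fun z => P x' z))).card + L := by
  have h1 := Finset.card_inter_add_card_sdiff (T.filter (fun z => P x z))
    (T.filter (fun z => P x' z))
  have h2 := Finset.card_inter_add_card_sdiff (T.filter (fun z => P x' z))
    (T.filter (fun z => P x z))
  rw [Finset.inter_comm] at h2
  have h3 : ((T.filter (fun z => P x z)) \ (T.filter (fun z => P x' z))).card +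
      ((T.filter (fun z => P x' z)) \ (T.filter (fun z => P x z))).card ≤ L := by
    rw [← Finset.card_union_of_disjoint]
    · refine (Finset.card_le_card ?_).trans hd
      intro z hz
      simp only [mem_union, mem_sdiff, mem_filter] at hz ⊢
      tauto
    · rw [Finset.disjoint_left]
      intro z hz hz'
      simp only [mem_sdiff, mem_filter] at hz hz'
      tauto
  omega

open Classical in
/-- rows are small if the columns are small -/
lemma row_small {P : M → M → Prop} (hP : ∀ h ∈ H, ∀ x y, P (h x) (h y) ↔ P x y) (L : ℕ)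
    (T : Finset M) (hT : ∀ g ∈ H, ∀ z, g z ∈ T ↔ z ∈ T) (x : M) (hx : 4 * L < (orb H x).card)
    (hd : ∀ x' ∈ orb H x, (T.filter (fun z => ¬ (P x z ↔ P x' z))).card ≤ L)
    (hc : ∀ z ∈ T, ((orb H x).filter (fun x' => P x' z)).card ≤ L) :
    (T.filter (fun z => P x z)).card ≤ L := by
  by_contra hm
  push Not at hm
  have h1 := sum_inter P (orb H x) T x
  have h2 : ∑ z ∈ T.filter (fun z => P x z), ((orb H x).filter (fun x' => P x' z)).card ≤
      (T.filter (fun z => P x z)).card * L := by
    rw [← smul_eq_mul]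
    exact Finset.sum_le_card_nsmul _ _ _ (fun z hz => hc z (mem_filter.1 hz).1)
  have h3 : (orb H x).card * (2 * (T.filter (fun z => P x z)).card) ≤
      ∑ x' ∈ orb H x, (2 * ((T.filter (fun z => P x z)) ∩
        (T.filter (fun z => P x' z))).card + L) := by
    rw [← smul_eq_mul]
    refine Finset.card_nsmul_le_sum _ _ _ (fun x' hx' => inter_large P T x x' L ?_ (hd x' hx'))
    obtain ⟨g, hg, rfl⟩ := mem_orb.1 hx'
    exact card_filter_apply hP hg x T (hT g hg)
  rw [Finset.sum_add_distrib, ← Finset.mul_sum, h1, Finset.sum_const, smul_eq_mul] at h3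
  generalize (T.filter (fun z => P x z)).card = m at hm h2 h3
  generalize ∑ z ∈ T.filter (fun z => P x z), ((orb H x).filter (fun x' => P x' z)).card = A
    at h2 h3
  generalize (orb H x).card = o at hx h3
  have h4 : o * (2 * m) ≤ 2 * (m * L) + o * L := h3.trans (by omega)
  have h5 : (o : ℤ) * (2 * m - L) ≤ 2 * (m * L) := by
    have : ((o * (2 * m) : ℕ) : ℤ) ≤ ((2 * (m * L) + o * L : ℕ) : ℤ) := by exact_mod_cast h4
    push_cast at this
    linarith
  have hm' : (L : ℤ) + 1 ≤ m := by exact_mod_cast hm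
  have ho' : 4 * (L : ℤ) + 1 ≤ o := by exact_mod_cast hx
  have hL : (0 : ℤ) ≤ L := Int.natCast_nonneg L
  have h6 : (4 * (L : ℤ) + 1) * (2 * m - L) ≤ o * (2 * m - L) :=
    mul_le_mul_of_nonneg_right ho' (by linarith)
  nlinarith [mul_nonneg hL (by linarith : (0 : ℤ) ≤ m - L - 1)]

open Classical in
/-- between two orbits the density is close to `0` or `1` -/
lemma orb_dich {P : M → M → Prop} (hP : ∀ h ∈ H, ∀ x y, P (h x) (h y) ↔ P x y) (L : ℕ)
    (x y : M)
    (hd : ∀ x' ∈ orb H x, ((orb H y).filter (fun z => ¬ (P x z ↔ P x' z))).card ≤ L) :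
    (orb H x).card * ((orb H y).filter (fun z => P x z)).card =
      (orb H y).card * ((orb H x).filter (fun x' => P x' y)).card ∧
    (((orb H y).filter (fun z => P x z)).card ≤ L ∨
      (orb H y).card ≤ ((orb H y).filter (fun z => P x z)).card + L) := by
  have hrow : ∀ x' ∈ orb H x, ((orb H y).filter (fun z => P x' z)).card =
      ((orb H y).filter (fun z => P x z)).card := by
    intro x' hx'
    obtain ⟨g, hg, rfl⟩ := mem_orb.1 hx'
    exact card_filter_apply hP hg x _ (fun z => mem_orb_apply hg y z)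
  have hcol : ∀ z ∈ orb H y, ((orb H x).filter (fun x' => P x' z)).card =
      ((orb H x).filter (fun x' => P x' y)).card := by
    intro z hz
    obtain ⟨g, hg, rfl⟩ := mem_orb.1 hz
    exact card_filter_apply (P := fun a b => P b a) (fun h hh a b => hP h hh b a) hg y _
      (fun z => mem_orb_apply hg x z)
  have h0 := sum_double P (orb H x) (orb H y)
  rw [Finset.sum_congr rfl hrow, Finset.sum_congr rfl hcol, Finset.sum_const, Finset.sum_const,
    smul_eq_mul, smul_eq_mul] at h0
  refine ⟨h0, ?_⟩
  have h1 := sum_inter P (orb H x) (orb H y) x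
  rw [Finset.sum_congr rfl (fun z hz => hcol z (mem_filter.1 hz).1), Finset.sum_const,
    smul_eq_mul] at h1
  have h3 : (orb H x).card * (2 * ((orb H y).filter (fun z => P x z)).card) ≤
      ∑ x' ∈ orb H x, (2 * (((orb H y).filter (fun z => P x z)) ∩
        ((orb H y).filter (fun z => P x' z))).card + L) := by
    rw [← smul_eq_mul]
    exact Finset.card_nsmul_le_sum _ _ _ (fun x' hx' => inter_large P _ x x' L (hrow x' hx')
      (hd x' hx'))
  rw [Finset.sum_add_distrib, ← Finset.mul_sum, h1, Finset.sum_const, smul_eq_mul] at h3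
  have hle : ((orb H y).filter (fun z => P x z)).card ≤ (orb H y).card :=
    Finset.card_filter_le _ _
  have hpos : 0 < (orb H x).card := Finset.card_pos.2 ⟨x, self_mem_orb x⟩
  generalize ((orb H y).filter (fun z => P x z)).card = a at h0 h3 hle
  generalize ((orb H x).filter (fun x' => P x' y)).card = b at h0 h3
  generalize (orb H x).card = o at h0 h3 hpos
  generalize (orb H y).card = p at h0 h3 hle
  by_contra hcon
  push Not at hcon
  obtain ⟨c1, c2⟩ := hcon
  -- `o * p * 2 a ≤ 2 a * (p * b) + o * p * L = 2 a * o * a + o p L`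
  have h4 : o * (p * (2 * a)) ≤ o * (2 * (a * a) + p * L) := by
    calc o * (p * (2 * a)) = p * (o * (2 * a)) := by ring
      _ ≤ p * (2 * (a * b) + o * L) := Nat.mul_le_mul_left _ h3
      _ = 2 * a * (p * b) + o * (p * L) := by ring
      _ = 2 * a * (o * a) + o * (p * L) := by rw [h0]
      _ = o * (2 * (a * a) + p * L) := by ring
  have h5 : p * (2 * a) ≤ 2 * (a * a) + p * L := Nat.le_of_mul_le_mul_left h4 hpos
  obtain ⟨c, rfl⟩ : ∃ c, p = a + c := ⟨p - a, by omega⟩
  have c3 : L < c := by omega
  have h6 : 2 * (a * c) ≤ (a + c) * L := by nlinarith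
  have h7 : a * (L + 1) ≤ a * c := Nat.mul_le_mul_left _ c3
  have h8 : (L + 1) * c ≤ a * c := Nat.mul_le_mul_right _ c1
  nlinarith

end Pool.Agent.Helper12.MC
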