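import Pool.Agent.Helper12.MC.Closed
import Pool.Agent.Helper38.MC.ADefs

/-!
# Block P3
-/

set_option autoImplicit false

namespace Pool.Agent.Helper12.MC

open Pool.Agent.Helper40.MC Pool.Agent.Helper38.MC

/-- block P3 -/
theorem stmtP3 : StmtP3 := by
  classical
  intro V _ G P T k hT
  rcases p3 G P T k hT with h | ⟨F, A, hPF, hFA, hk, hF, hA, h⟩
  · exact Or.inl h
  · refine Or.inr ⟨F, A, hPF, hFA, ?_, hF, hA, fun g hg hgF => ?_⟩
    · have := Finset.card_sdiff_add_card_eq_card hFA.1
      omega
    · rcases h g ⟨hg, hgF⟩ with h1 | h1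
      · left
        intro x hx
        rw [← h1]
        exact Finset.mem_map.2 ⟨x, hx, rfl⟩
      · right
        intro x hx hgx
        have h2 : g x ∈ F := by
          rw [← h1, Finset.mem_inter]
          exact ⟨Finset.mem_map.2 ⟨x, hx, rfl⟩, hgx⟩
        have h3 := g.injective (hgF _ h2)
        rw [h3] at h2
        exact h2

end Pool.Agent.Helper12.MC
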